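import Mathlib

open Finset

namespace Pool.Agent.Results.MP_90f83a_nt.Nonint

theorem result (r s : ℕ) (hs : 1 < s) (hr : s < r) (c : ℕ → ℚ)
    (h : ∀ n, ∑ k ∈ range (n + 1), ((n.choose k : ℚ) ^ r * ((n + k).choose k : ℚ) ^ r) =
      ∑ k ∈ range (n + 1), (n.choose k : ℚ) ^ s * ((n + k).choose k : ℚ) ^ s * c k) :
    ∃ n, 0 < n ∧ ¬ ∃ z : ℤ, c n = z := by
  by_contra! hc
  obtain ⟨d, rfl⟩ := Nat.exists_eq_add_of_lt hr
  have c0 : c 0 = 1 := by simpa using (h 0).symm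
  have c1 : c 1 = 2 ^ (d + 1) := by
    have := h 1
    simp only [sum_range_succ, range_zero, sum_empty, c0] at this
    norm_num at this
    rw [add_assoc, pow_add] at this
    exact (mul_left_cancel₀ (by positivity) this).symm
  choose! z hz using hc
  obtain ⟨p, hp1, hp⟩ := Nat.exists_infinite_primes (d + 5)
  obtain ⟨m, rfl⟩ : ∃ m, p = m + 4 := ⟨p - 4, by omega⟩
  have h1 := h (m + 2)
  rw [sum_range_succ', sum_range_succ', sum_range_succ' _ (m + 2), sum_range_succ' _ (m + 1),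
    c0, c1] at h1
  simp only [zero_add, Nat.choose_one_right, Nat.choose_zero_right,
    fun k => hz (k + 1 + 1) (by omega)] at h1
  have key : ∀ e, 2 ≤ e → ∀ k ∈ range (m + 1),
      ((m : ℤ) + 4) ^ 2 ∣ ((m + 2 + (k + 1 + 1)).choose (k + 1 + 1) : ℤ) ^ e := by
    intro e he k hk
    have hk := mem_range.1 hk
    have := hp.dvd_choose_add (a := k + 1 + 1) (b := m + 2) (by omega) (by omega) (by omega)
    rw [add_comm (k + 1 + 1)] at this
    exact (pow_dvd_pow_of_dvd (by exact_mod_cast this) 2).trans (pow_dvd_pow _ he)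
  have h2 : ((m : ℤ) + 4) ^ 2 ∣ ((m + 2) * (m + 3) : ℤ) ^ s *
      (((m + 2) * (m + 3)) ^ (d + 1) - 2 ^ (d + 1)) := by
    have a1 := dvd_sum fun k hk => (key _ (by omega : 2 ≤ s + d + 1) k hk).mul_left
      (((m + 2).choose (k + 1 + 1) : ℤ) ^ (s + d + 1))
    have a2 := dvd_sum fun k hk => ((key _ hs k hk).mul_left
      (((m + 2).choose (k + 1 + 1) : ℤ) ^ s)).mul_right (z (k + 1 + 1))
    have h3 : ∑ k ∈ range (m + 1), ((m + 2).choose (k + 1 + 1) : ℤ) ^ (s + d + 1) *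
        ((m + 2 + (k + 1 + 1)).choose (k + 1 + 1) : ℤ) ^ (s + d + 1) +
        ((m + 2 : ℕ) : ℤ) ^ (s + d + 1) * ((m + 2 + 1 : ℕ) : ℤ) ^ (s + d + 1) =
        ∑ k ∈ range (m + 1), ((m + 2).choose (k + 1 + 1) : ℤ) ^ s *
        ((m + 2 + (k + 1 + 1)).choose (k + 1 + 1) : ℤ) ^ s * z (k + 1 + 1) +
        ((m + 2 : ℕ) : ℤ) ^ s * ((m + 2 + 1 : ℕ) : ℤ) ^ s * 2 ^ (d + 1) := by
      simp only [Nat.cast_one, one_pow, mul_one, add_left_inj] at h1
      exact_mod_cast h1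
    push_cast at h3
    exact (dvd_sub a2 a1).trans (dvd_of_eq (by rw [mul_pow, mul_pow]; linear_combination -h3))
  have hq : Prime ((m : ℤ) + 4) := by exact_mod_cast Nat.prime_iff_prime_int.1 hp
  have nd : ∀ x : ℤ, 0 < x → x < m + 4 → ¬ (m : ℤ) + 4 ∣ x := fun x h0 h1 h =>
    absurd (Int.le_of_dvd h0 h) (by omega)
  have h4 := hq.pow_dvd_of_dvd_mul_left 2 (fun h => by
    rcases hq.dvd_or_dvd (hq.dvd_of_dvd_pow h) with h | h
    exacts [nd (m + 2) (by omega) (by omega) h, nd (m + 3) (by omega) (by omega) h]) h2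
  have h5 := (pow_dvd_pow_of_dvd (dvd_mul_right ((m : ℤ) + 4) (m + 1)) 2).trans
    (sq_dvd_add_pow_sub_sub ((m + 4) * (m + 1) : ℤ) 2 (d + 1))
  have h6 : ((m : ℤ) + 4) * (m + 4) ∣ (m + 4) * (2 ^ d * ((m + 1) * (d + 1))) := by
    have := dvd_sub h4 h5
    rw [show (2 : ℤ) + (m + 4) * (m + 1) = (m + 2) * (m + 3) by ring] at this
    rw [← sq]
    exact this.trans (dvd_of_eq (by push_cast; ring))
  rcases hq.dvd_or_dvd ((mul_dvd_mul_iff_left hq.ne_zero).1 h6) with h | h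
  · exact nd 2 (by omega) (by omega) (hq.dvd_of_dvd_pow h)
  · rcases hq.dvd_or_dvd h with h | h
    exacts [nd (m + 1) (by omega) (by omega) h, nd (d + 1) (by omega) (by omega) h]

end Pool.Agent.Results.MP_90f83a_nt.Nonint
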